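import Mathlib

/-!
# MP_88b750_co: minimal wall length of square tilings by distinct rectangles

In the middle regime `T_{m-2} ≤ n < T_{m-1}` the minimal internal wall length is `n + 2(m-2)`.
-/

namespace Pool.Agent.Results.MP_88b750_co.MiddleRegime

open Set

/-- The closed rectangle with lower left corner `(x,y)`, width `a` and height `b`. -/
def rect (x y : ℝ) (a b : ℕ) : Set (ℝ × ℝ) := Icc x (x + a) ×ˢ Icc y (y + b)

/-- An admissible tiling of `[0,n]²` by `m` rectangles; tile `i` has lower left corner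
`(x i, y i)`, width `a i` and height `b i`. -/
structure IsTiling (n m : ℕ) (x y : Fin m → ℝ) (a b : Fin m → ℕ) : Prop where
  a_pos : ∀ i, 0 < a i
  b_pos : ∀ i, 0 < b i
  cover : ⋃ i, rect (x i) (y i) (a i) (b i) = Icc (0 : ℝ) n ×ˢ Icc (0 : ℝ) n
  disj : ∀ i j, i ≠ j →
    Disjoint (interior (rect (x i) (y i) (a i) (b i))) (interior (rect (x j) (y j) (a j) (b j)))
  shapes : ∀ i j, i ≠ j → s(a i, b i) ≠ s(a j, b j)

/-- The set of internal wall lengths `W = ∑ (a_i + b_i) - 2n` of admissible tilings. -/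
def wallLengths (n m : ℕ) : Set ℕ :=
  {W | ∃ (x y : Fin m → ℝ) (a b : Fin m → ℕ), IsTiling n m x y a b ∧
    ∑ i, (a i + b i) = W + 2 * n}

/-- The minimal internal wall length. -/
noncomputable def Wstar (n m : ℕ) : ℕ := sInf (wallLengths n m)

/-! ### The discrete lower bound -/

/-- A discrete tiling of the `n × n` grid of cells. -/
structure DTiling (n m : ℕ) (x y a b : Fin m → ℕ) : Prop where
  a_pos : ∀ i, 0 < a i
  b_pos : ∀ i, 0 < b i
  xa : ∀ i, x i + a i ≤ n
  yb : ∀ i, y i + b i ≤ n
  ex : ∀ c < n, ∀ r < n, ∃ i, (x i ≤ c ∧ c < x i + a i) ∧ (y i ≤ r ∧ r < y i + b i)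
  uniq : ∀ c r i j, (x i ≤ c ∧ c < x i + a i) → (y i ≤ r ∧ r < y i + b i) →
    (x j ≤ c ∧ c < x j + a j) → (y j ≤ r ∧ r < y j + b j) → i = j
  shapes : ∀ i j, i ≠ j → s(a i, b i) ≠ s(a j, b j)

lemma DTiling.swap {n m : ℕ} {x y a b : Fin m → ℕ} (h : DTiling n m x y a b) :
    DTiling n m y x b a where
  a_pos := h.b_pos
  b_pos := h.a_pos
  xa := h.yb
  yb := h.xa
  ex := fun c hc r hr => by
    obtain ⟨i, h1, h2⟩ := h.ex r hr c hc
    exact ⟨i, h2, h1⟩
  uniq := fun c r i j h1 h2 h3 h4 => h.uniq r c i j h2 h1 h4 h3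
  shapes := fun i j hij => by
    rw [Sym2.eq_swap, Sym2.eq_swap (a := b j)]
    exact h.shapes i j hij

/-- The number of tiles crossing a column. -/
def cross {m : ℕ} (x a : Fin m → ℕ) (c : ℕ) : ℕ :=
  (Finset.univ.filter fun i => x i ≤ c ∧ c < x i + a i).card

lemma sum_cross_filter {m n : ℕ} (x a : Fin m → ℕ) (hxa : ∀ i, x i + a i ≤ n)
    (S : Finset (Fin m)) :
    ∑ c ∈ Finset.range n, (S.filter fun i => x i ≤ c ∧ c < x i + a i).card = ∑ i ∈ S, a i := by
  simp only [Finset.card_filter]
  rw [Finset.sum_comm]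
  apply Finset.sum_congr rfl
  intro i _
  rw [← Finset.card_filter]
  have : (Finset.range n).filter (fun c => x i ≤ c ∧ c < x i + a i) =
      Finset.Ico (x i) (x i + a i) := by
    ext c
    simp only [Finset.mem_filter, Finset.mem_range, Finset.mem_Ico]
    have := hxa i
    constructor
    · rintro ⟨_, h⟩; exact h
    · rintro h; exact ⟨by omega, h⟩
  rw [this, Nat.card_Ico]
  omega

lemma sum_cross {m n : ℕ} (x a : Fin m → ℕ) (hxa : ∀ i, x i + a i ≤ n) :
    ∑ c ∈ Finset.range n, cross x a c = ∑ i, a i :=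
  sum_cross_filter x a hxa Finset.univ

/-- A sum of distinct positive integers. -/
lemma sum_distinct : ∀ (k : ℕ) (T : Finset ℕ), T.card = k → (∀ t ∈ T, 1 ≤ t) →
    k * (k + 1) ≤ 2 * ∑ t ∈ T, t := by
  intro k
  induction k with
  | zero => intro T _ _; simp
  | succ k ih =>
    intro T hT h1
    have hne : T.Nonempty := by rw [← Finset.card_pos]; omega
    have hmax := T.max'_mem hne
    have hsub : T ⊆ Finset.Icc 1 (T.max' hne) := by
      intro t ht
      rw [Finset.mem_Icc]
      exact ⟨h1 t ht, T.le_max' t ht⟩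
    have hc := Finset.card_le_card hsub
    rw [Nat.card_Icc, hT] at hc
    have h2 := ih (T.erase (T.max' hne)) (by rw [Finset.card_erase_of_mem hmax]; omega)
      (fun t ht => h1 t (Finset.mem_of_mem_erase ht))
    have h3 : T.max' hne + ∑ t ∈ T.erase (T.max' hne), t = ∑ t ∈ T, t :=
      Finset.add_sum_erase T (fun t => t) hmax
    have e : (k + 1) * (k + 1 + 1) = k * (k + 1) + 2 * (k + 1) := by ring
    omega

/-- The main case: some row is crossed by a single tile. -/
lemma main_case {n m : ℕ} {x y a b : Fin m → ℕ} (h : DTiling n m x y a b) (hm : 2 ≤ m)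
    (hn : 2 * (m - 2) ≤ n) (hn2 : 2 * n < m * (m - 1)) (r0 : ℕ) (hr0 : r0 < n)
    (hrow : cross y b r0 ≤ 1) : 3 * n + 2 * (m - 2) ≤ ∑ i, a i + ∑ i, b i := by
  classical
  have hn1 : 1 ≤ n := by omega
  -- the full-width tile
  obtain ⟨P, hP1, hP2⟩ := h.ex 0 (by omega) r0 hr0
  have hProw : ∀ i, (y i ≤ r0 ∧ r0 < y i + b i) → i = P := by
    intro i hi
    unfold cross at hrow
    rw [Finset.card_le_one] at hrow
    exact hrow i (by simp [hi]) P (by simp [hP2])
  have hPfull : ∀ c < n, x P ≤ c ∧ c < x P + a P := by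
    intro c hc
    obtain ⟨i, hi1, hi2⟩ := h.ex c hc r0 hr0
    rw [hProw i hi2] at hi1
    exact hi1
  have hPx : x P = 0 := by
    have := (hPfull 0 (by omega)).1
    omega
  have hPa : a P = n := by
    have h1 := (hPfull (n - 1) (by omega)).2
    have h2 := h.xa P
    omega
  -- every tile other than P avoids the rows of P
  have hoff : ∀ i, i ≠ P → y i + b i ≤ y P ∨ y P + b P ≤ y i := by
    intro i hi
    by_contra hcon
    push Not at hcon
    apply hi
    have hb1 := h.b_pos i
    have hb2 := h.b_pos P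
    have ha := h.a_pos i
    have hxa := h.xa i
    exact h.uniq (x i) (max (y i) (y P)) i P ⟨le_refl _, by omega⟩
      ⟨le_max_left _ _, by omega⟩ (hPfull (x i) (by omega)) ⟨le_max_right _ _, by omega⟩
  have hbsum : n ≤ ∑ i, b i := by
    rw [← sum_cross y b h.yb]
    have : ∀ r ∈ Finset.range n, 1 ≤ cross y b r := by
      intro r hr
      rw [Finset.mem_range] at hr
      obtain ⟨i, _, hi2⟩ := h.ex 0 (by omega) r hr
      exact Finset.card_pos.2 ⟨i, by simp [hi2]⟩
    have := Finset.card_nsmul_le_sum (Finset.range n) _ 1 this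
    simpa using this
  by_cases hv : ∀ c < n, 3 ≤ cross x a c
  · have h3 : n * 3 ≤ ∑ i, a i := by
      rw [← sum_cross x a h.xa]
      have := Finset.card_nsmul_le_sum (Finset.range n) (fun c => cross x a c) 3
        (fun c hc => hv c (Finset.mem_range.1 hc))
      simpa using this
    omega
  · push Not at hv
    obtain ⟨c0, hc0, hv0⟩ := hv
    -- another tile in column c0
    have hPnot : b P < n := by
      by_contra hcon
      have hyP := h.yb P
      obtain ⟨j, hj⟩ : ∃ j : Fin m, j ≠ P := by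
        by_contra hall
        push Not at hall
        have : Fintype.card (Fin m) ≤ 1 := by
          rw [Fintype.card_le_one_iff]
          intro i j
          rw [hall i, hall j]
        rw [Fintype.card_fin] at this
        omega
      have := hoff j hj
      have := h.b_pos j
      have := h.yb j
      omega
    -- rows outside of P are covered by a single tile in column c0
    have hrowout : ∃ r, r < n ∧ ¬ (y P ≤ r ∧ r < y P + b P) := by
      by_contra hcon
      push Not at hcon
      have h1 := hcon 0 (by omega)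
      have h2 := hcon (n - 1) (by omega)
      have := h.yb P
      by_cases h3 : y P ≤ 0 ∧ 0 < y P + b P
      · by_cases h4 : y P ≤ n - 1 ∧ n - 1 < y P + b P
        · omega
        · exact h4 (by tauto)
      · exact h3 (by tauto)
    obtain ⟨r1, hr1, hr1P⟩ := hrowout
    obtain ⟨Q, hQ1, hQ2⟩ := h.ex c0 hc0 r1 hr1
    have hQP : Q ≠ P := by
      rintro rfl
      exact hr1P hQ2
    have htwo : ∀ i, (x i ≤ c0 ∧ c0 < x i + a i) → i = P ∨ i = Q := by
      intro i hi
      by_contra hcon
      push Not at hcon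
      have h3 : ({i, P, Q} : Finset (Fin m)).card = 3 := by
        rw [Finset.card_eq_three]
        exact ⟨i, P, Q, hcon.1, hcon.2, hQP.symm, rfl⟩
      have h4 : ({i, P, Q} : Finset (Fin m)) ⊆
          Finset.univ.filter fun i => x i ≤ c0 ∧ c0 < x i + a i := by
        intro j hj
        simp only [Finset.mem_insert, Finset.mem_singleton] at hj
        rw [Finset.mem_filter]
        refine ⟨Finset.mem_univ _, ?_⟩
        rcases hj with rfl | rfl | rfl
        · exact hi
        · exact hPfull c0 hc0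
        · exact hQ1
      have := Finset.card_le_card h4
      rw [h3] at this
      unfold cross at hv0
      omega
    have hcovQ : ∀ r < n, ¬ (y P ≤ r ∧ r < y P + b P) → y Q ≤ r ∧ r < y Q + b Q := by
      intro r hr hrP
      obtain ⟨i, hi1, hi2⟩ := h.ex c0 hc0 r hr
      rcases htwo i hi1 with rfl | rfl
      · exact absurd hi2 hrP
      · exact hi2
    have hQoff := hoff Q hQP
    have hyP := h.yb P
    have hyQ := h.yb Q
    have hbP := h.b_pos P
    have hbQ := h.b_pos Q
    -- the strip
    have hstrip : (y P = 0 ∧ y Q = b P ∧ b P + b Q = n) ∨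
        (y Q = 0 ∧ y P = b Q ∧ b P + b Q = n) := by
      rcases hQoff with hQ | hQ
      · right
        have e1 : y Q = 0 := by
          by_contra hne
          have := hcovQ 0 (by omega) (by omega)
          omega
        have e2 : y P = b Q := by
          by_contra hne
          have := hcovQ (y Q + b Q) (by omega) (by omega)
          omega
        have e3 : y P + b P = n := by
          by_contra hne
          have := hcovQ (y P + b P) (by omega) (by omega)
          omega
        omega
      · left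
        have e1 : y P = 0 := by
          by_contra hne
          have := hcovQ 0 (by omega) (by omega)
          omega
        have e2 : y Q = b P := by
          by_contra hne
          have := hcovQ (b P) (by omega) (by omega)
          omega
        have e3 : y Q + b Q = n := by
          by_contra hne
          have := hcovQ (y Q + b Q) (by omega) (by omega)
          omega
        omega
    have hbPQ : b P + b Q = n := by
      rcases hstrip with ⟨_, _, h3⟩ | ⟨_, _, h3⟩ <;> exact h3
    have hin : ∀ i, i ≠ P → y Q ≤ y i ∧ y i + b i ≤ y Q + b Q := by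
      intro i hi
      have h1 := hoff i hi
      have h2 := h.yb i
      have h3 := h.b_pos i
      rcases hstrip with ⟨h4, h5, h6⟩ | ⟨h4, h5, h6⟩ <;> omega
    have hstripP : ∀ c < n, ∀ r, y Q ≤ r → r < y Q + b Q → ∃ i, i ≠ P ∧
        (x i ≤ c ∧ c < x i + a i) ∧ (y i ≤ r ∧ r < y i + b i) := by
      intro c hc r h1 h2
      obtain ⟨i, hi1, hi2⟩ := h.ex c hc r (by omega)
      refine ⟨i, ?_, hi1, hi2⟩
      rintro rfl
      omega
    -- the tiles of the strip
    set S : Finset (Fin m) := Finset.univ.erase P with hS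
    set F : Finset (Fin m) := S.filter fun i => b i = b Q with hF
    set N : Finset (Fin m) := S.filter fun i => ¬ b i = b Q with hN
    have hSmem : ∀ i, i ∈ S ↔ i ≠ P := by intro i; simp [hS]
    have hScard : S.card = m - 1 := by
      rw [hS, Finset.card_erase_of_mem (Finset.mem_univ _), Finset.card_univ, Fintype.card_fin]
    have hFN : F.card + N.card = m - 1 := by
      rw [← hScard]
      exact Finset.card_filter_add_card_filter_not _
    have hQF : Q ∈ F := Finset.mem_filter.2 ⟨(hSmem Q).2 hQP, rfl⟩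
    have hFfull : ∀ i ∈ F, y i = y Q ∧ b i = b Q := by
      intro i hi
      rw [hF, Finset.mem_filter, hSmem] at hi
      have := hin i hi.1
      exact ⟨by omega, hi.2⟩
    have hNlt : ∀ i ∈ N, b i < b Q := by
      intro i hi
      rw [hN, Finset.mem_filter, hSmem] at hi
      have := hin i hi.1
      omega
    -- sums
    have hsa : ∑ i, a i = n + (∑ i ∈ F, a i + ∑ i ∈ N, a i) := by
      rw [hF, hN, Finset.sum_filter_add_sum_filter_not, hS, ← hPa]
      exact (Finset.add_sum_erase _ _ (Finset.mem_univ P)).symm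
    have hsb : ∑ i, b i = b P + (∑ i ∈ F, b i + ∑ i ∈ N, b i) := by
      rw [hF, hN, Finset.sum_filter_add_sum_filter_not, hS]
      exact (Finset.add_sum_erase _ _ (Finset.mem_univ P)).symm
    have hsbF : ∑ i ∈ F, b i = F.card * b Q :=
      Finset.sum_const_nat fun i hi => (hFfull i hi).2
    by_cases hQ1 : b Q = 1
    · -- the strip has height one
      exfalso
      have hNe : N = ∅ := by
        rw [Finset.eq_empty_iff_forall_notMem]
        intro i hi
        have := hNlt i hi
        have := h.b_pos i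
        omega
      have hFcard : F.card = m - 1 := by
        rw [hNe, Finset.card_empty] at hFN
        omega
      have hFsum : ∑ i ∈ F, a i ≤ n := by
        rw [← sum_cross_filter x a h.xa F]
        have : ∀ c ∈ Finset.range n, (F.filter fun i => x i ≤ c ∧ c < x i + a i).card ≤ 1 := by
          intro c _
          rw [Finset.card_le_one]
          intro i hi j hj
          rw [Finset.mem_filter] at hi hj
          have e1 := hFfull i hi.1
          have e2 := hFfull j hj.1
          exact h.uniq c (y Q) i j hi.2 (by omega) hj.2 (by omega)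
        have := Finset.sum_le_card_nsmul (Finset.range n) _ 1 this
        simpa using this
      have hinj : Set.InjOn a (F : Set (Fin m)) := by
        intro i hi j hj hij
        by_contra hne
        apply h.shapes i j hne
        rw [hij, (hFfull i hi).2, (hFfull j hj).2]
      have hd := sum_distinct (m - 1) (F.image a) (by
          rw [Finset.card_image_of_injOn hinj, hFcard])
        (by
          intro t ht
          rw [Finset.mem_image] at ht
          obtain ⟨i, _, rfl⟩ := ht
          exact h.a_pos i)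
      rw [Finset.sum_image (fun i hi j hj hij => hinj hi hj hij)] at hd
      have e : (m - 1) * (m - 1 + 1) = m * (m - 1) := by
        rw [Nat.sub_add_cancel (by omega)]
        ring
      rw [e] at hd
      omega
    · -- the strip has height at least two
      have hQ2 : 2 ≤ b Q := by omega
      set X : Finset ℕ := (Finset.range n).filter
        (fun c => ∀ i ∈ F, ¬ (x i ≤ c ∧ c < x i + a i)) with hX
      -- full-height tiles cover the columns outside of X
      have hFa : n ≤ X.card + ∑ i ∈ F, a i := by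
        rw [← sum_cross_filter x a h.xa F]
        have h1 : X.card + ((Finset.range n).filter
            (fun c => ¬ ∀ i ∈ F, ¬ (x i ≤ c ∧ c < x i + a i))).card = n := by
          rw [hX, Finset.card_filter_add_card_filter_not, Finset.card_range]
        have h2 : ((Finset.range n).filter
            (fun c => ¬ ∀ i ∈ F, ¬ (x i ≤ c ∧ c < x i + a i))).card ≤
            ∑ c ∈ Finset.range n, (F.filter fun i => x i ≤ c ∧ c < x i + a i).card := by
          rw [Finset.card_filter]
          apply Finset.sum_le_sum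
          intro c _
          by_cases hif : ∀ i ∈ F, ¬ (x i ≤ c ∧ c < x i + a i)
          · rw [if_neg (not_not.2 hif)]
            exact Nat.zero_le _
          · rw [if_pos hif]
            push Not at hif
            obtain ⟨i, hi1, hi2⟩ := hif
            exact Finset.card_pos.2 ⟨i, Finset.mem_filter.2 ⟨hi1, hi2⟩⟩
        omega
      -- the other tiles cover the columns of X twice
      have hNa : 2 * X.card ≤ ∑ i ∈ N, a i := by
        rw [← sum_cross_filter x a h.xa N]
        have h1 : ∀ c ∈ X, 2 ≤ (N.filter fun i => x i ≤ c ∧ c < x i + a i).card := by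
          intro c hc
          rw [hX, Finset.mem_filter, Finset.mem_range] at hc
          obtain ⟨i, hi1, hi2, hi3⟩ := hstripP c hc.1 (y Q) (le_refl _) (by omega)
          obtain ⟨j, hj1, hj2, hj3⟩ := hstripP c hc.1 (y Q + b Q - 1) (by omega) (by omega)
          have hiF : i ∉ F := fun hiF => hc.2 i hiF hi2
          have hjF : j ∉ F := fun hjF => hc.2 j hjF hj2
          have hiN : i ∈ N := by
            rw [hN, Finset.mem_filter, hSmem]
            refine ⟨hi1, fun he => hiF ?_⟩
            rw [hF, Finset.mem_filter, hSmem]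
            exact ⟨hi1, he⟩
          have hjN : j ∈ N := by
            rw [hN, Finset.mem_filter, hSmem]
            refine ⟨hj1, fun he => hjF ?_⟩
            rw [hF, Finset.mem_filter, hSmem]
            exact ⟨hj1, he⟩
          have hij : i ≠ j := by
            rintro rfl
            have := hNlt i hiN
            omega
          have h2 : ({i, j} : Finset (Fin m)).card = 2 := Finset.card_pair hij
          rw [← h2]
          apply Finset.card_le_card
          intro k hk
          simp only [Finset.mem_insert, Finset.mem_singleton] at hk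
          rcases hk with rfl | rfl
          · exact Finset.mem_filter.2 ⟨hiN, hi2⟩
          · exact Finset.mem_filter.2 ⟨hjN, hj2⟩
        have h2 := Finset.card_nsmul_le_sum X _ 2 h1
        rw [smul_eq_mul, mul_comm] at h2
        refine h2.trans ?_
        exact Finset.sum_le_sum_of_subset (Finset.filter_subset _ _)
      -- unit-height tiles
      set U : Finset (Fin m) := N.filter fun i => b i = 1 with hU
      have hUX : U.card ≤ X.card := by
        have h1 : U.card ≤ (Finset.Icc 1 X.card).card := by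
          apply Finset.card_le_card_of_injOn a
          · intro i hi
            rw [Finset.mem_coe, hU, Finset.mem_filter] at hi
            rw [Finset.coe_Icc, Set.mem_Icc]
            refine ⟨h.a_pos i, ?_⟩
            have h2 : Finset.Ico (x i) (x i + a i) ⊆ X := by
              intro c hc
              rw [Finset.mem_Ico] at hc
              rw [hX, Finset.mem_filter, Finset.mem_range]
              have hxa := h.xa i
              refine ⟨by omega, ?_⟩
              intro j hj hjc
              have e1 := hFfull j hj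
              have hiN := hi.1
              rw [hN, Finset.mem_filter, hSmem] at hiN
              have e2 := hin i hiN.1
              have hb := h.b_pos i
              have : i = j := h.uniq c (y i) i j hc ⟨le_refl _, by omega⟩ hjc (by omega)
              subst this
              exact hiN.2 e1.2
            have h3 := Finset.card_le_card h2
            rw [Nat.card_Ico] at h3
            omega
          · intro i hi j hj hij
            rw [Finset.mem_coe, hU, Finset.mem_filter] at hi hj
            by_contra hne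
            apply h.shapes i j hne
            rw [hij, hi.2, hj.2]
        rwa [Nat.card_Icc, Nat.add_sub_cancel] at h1
      have hNb : 2 * N.card ≤ ∑ i ∈ N, b i + U.card := by
        have hUc : U.card = ∑ i ∈ N, if b i = 1 then 1 else 0 := by
          rw [hU, Finset.card_filter]
        rw [hUc, ← Finset.sum_add_distrib]
        have := Finset.card_nsmul_le_sum N (fun i => b i + if b i = 1 then 1 else 0) 2 (by
          intro i _
          have := h.b_pos i
          show 2 ≤ b i + if b i = 1 then 1 else 0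
          split_ifs <;> omega)
        rw [smul_eq_mul, mul_comm] at this
        exact this
      have hFpos : 1 ≤ F.card := Finset.card_pos.2 ⟨Q, hQF⟩
      obtain ⟨β, hβ⟩ : ∃ β, b Q = β + 2 := ⟨b Q - 2, by omega⟩
      obtain ⟨φ, hφ⟩ : ∃ φ, F.card = φ + 1 := ⟨F.card - 1, by omega⟩
      have e : F.card * b Q = φ * β + β + 2 * F.card := by rw [hβ, hφ]; ring
      rw [hsa, hsb, hsbF, e]
      have : 0 ≤ φ * β := Nat.zero_le _
      omega

/-- The discrete lower bound. -/
lemma discrete_lower {n m : ℕ} {x y a b : Fin m → ℕ} (h : DTiling n m x y a b) (hm : 2 ≤ m)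
    (hn : 2 * (m - 2) ≤ n) (hn2 : 2 * n < m * (m - 1)) :
    3 * n + 2 * (m - 2) ≤ ∑ i, a i + ∑ i, b i := by
  by_cases hr : ∀ r < n, 2 ≤ cross y b r
  · by_cases hc : ∀ c < n, 2 ≤ cross x a c
    · have h1 : n * 2 ≤ ∑ i, a i := by
        rw [← sum_cross x a h.xa]
        have := Finset.card_nsmul_le_sum (Finset.range n) (fun c => cross x a c) 2
          (fun c hc' => hc c (Finset.mem_range.1 hc'))
        simpa using this
      have h2 : n * 2 ≤ ∑ i, b i := by
        rw [← sum_cross y b h.yb]
        have := Finset.card_nsmul_le_sum (Finset.range n) (fun c => cross y b c) 2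
          (fun c hc' => hr c (Finset.mem_range.1 hc'))
        simpa using this
      omega
    · push Not at hc
      obtain ⟨c0, hc0, hc1⟩ := hc
      have := main_case h.swap hm hn hn2 c0 hc0 (by omega)
      omega
  · push Not at hr
    obtain ⟨r0, hr0, hr1⟩ := hr
    exact main_case h hm hn hn2 r0 hr0 (by omega)

/-! ### Integrality of the positions -/

/-- The elementary conditions extracted from a tiling, symmetric in the two axes. -/
structure Cond (n : ℕ) {m : ℕ} (x y : Fin m → ℝ) (a b : Fin m → ℕ) : Prop where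
  a_pos : ∀ i, 0 < a i
  b_pos : ∀ i, 0 < b i
  cov : ∀ s t : ℝ, 0 ≤ s → s ≤ n → 0 ≤ t → t ≤ n →
    ∃ j, (x j ≤ s ∧ s ≤ x j + a j) ∧ (y j ≤ t ∧ t ≤ y j + b j)
  x0 : ∀ i, 0 ≤ x i
  xn : ∀ i, x i + a i ≤ n
  y0 : ∀ i, 0 ≤ y i
  yn : ∀ i, y i + b i ≤ n
  dis : ∀ i j, ∀ s t : ℝ, (x i < s ∧ s < x i + a i) → (y i < t ∧ t < y i + b i) →
    (x j < s ∧ s < x j + a j) → (y j < t ∧ t < y j + b j) → i = j

lemma Cond.swap {n m : ℕ} {x y : Fin m → ℝ} {a b : Fin m → ℕ} (h : Cond n x y a b) :
    Cond n y x b a where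
  a_pos := h.b_pos
  b_pos := h.a_pos
  cov := fun s t h1 h2 h3 h4 => by
    obtain ⟨j, h5, h6⟩ := h.cov t s h3 h4 h1 h2
    exact ⟨j, h6, h5⟩
  x0 := h.y0
  xn := h.yn
  y0 := h.x0
  yn := h.xn
  dis := fun i j s t h1 h2 h3 h4 => h.dis i j t s h2 h1 h4 h3

lemma interior_rect (x y : ℝ) (a b : ℕ) :
    interior (rect x y a b) = Ioo x (x + a) ×ˢ Ioo y (y + b) := by
  unfold rect
  rw [interior_prod_eq, interior_Icc, interior_Icc]

lemma IsTiling.cond {n m : ℕ} {x y : Fin m → ℝ} {a b : Fin m → ℕ} (h : IsTiling n m x y a b) :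
    Cond n x y a b := by
  have hsub : ∀ i, rect (x i) (y i) (a i) (b i) ⊆ Icc (0 : ℝ) n ×ˢ Icc (0 : ℝ) n := by
    intro i
    rw [← h.cover]
    exact Set.subset_iUnion (fun i => rect (x i) (y i) (a i) (b i)) i
  have hlow : ∀ i, 0 ≤ x i ∧ 0 ≤ y i := by
    intro i
    have : (x i, y i) ∈ rect (x i) (y i) (a i) (b i) :=
      ⟨⟨le_refl _, by simp⟩, ⟨le_refl _, by simp⟩⟩
    have := hsub i this
    exact ⟨this.1.1, this.2.1⟩
  have hhigh : ∀ i, x i + a i ≤ n ∧ y i + b i ≤ n := by
    intro i
    have : (x i + a i, y i + b i) ∈ rect (x i) (y i) (a i) (b i) :=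
      ⟨⟨by simp, le_refl _⟩, ⟨by simp, le_refl _⟩⟩
    have := hsub i this
    exact ⟨this.1.2, this.2.2⟩
  refine ⟨h.a_pos, h.b_pos, ?_, fun i => (hlow i).1, fun i => (hhigh i).1, fun i => (hlow i).2,
    fun i => (hhigh i).2, ?_⟩
  · intro s t h1 h2 h3 h4
    have : (s, t) ∈ Icc (0 : ℝ) n ×ˢ Icc (0 : ℝ) n := ⟨⟨h1, h2⟩, ⟨h3, h4⟩⟩
    rw [← h.cover, Set.mem_iUnion] at this
    obtain ⟨i, hi⟩ := this
    exact ⟨i, ⟨hi.1.1, hi.1.2⟩, ⟨hi.2.1, hi.2.2⟩⟩
  · intro i j s t h1 h2 h3 h4
    by_contra hij
    have := h.disj i j hij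
    rw [Set.disjoint_left] at this
    apply this (a := (s, t))
    · rw [interior_rect]; exact ⟨h1, h2⟩
    · rw [interior_rect]; exact ⟨h3, h4⟩

/-- Left coordinates are integers. -/
lemma Cond.intx {n m : ℕ} {x y : Fin m → ℝ} {a b : Fin m → ℕ} (h : Cond n x y a b) :
    ∀ i, ∃ k : ℤ, x i = k := by
  classical
  by_contra hcon
  push Not at hcon
  obtain ⟨i0, hi0⟩ := hcon
  set S : Finset (Fin m) := Finset.univ.filter fun i => ∀ k : ℤ, x i ≠ k with hS
  have hne : S.Nonempty := ⟨i0, by simp [hS, hi0]⟩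
  obtain ⟨i, hiS, himin⟩ := S.exists_min_image x hne
  have hi : ∀ k : ℤ, x i ≠ k := by
    rw [hS, Finset.mem_filter] at hiS
    exact hiS.2
  have hxi : 0 < x i := lt_of_le_of_ne (h.x0 i) (fun he => hi 0 (by rw [← he]; simp))
  -- a generic height
  set E : Set ℝ := Set.range y ∪ Set.range (fun j => y j + (b j : ℝ)) with hE
  have hEfin : E.Finite := (Set.finite_range _).union (Set.finite_range _)
  have hbi : (0 : ℝ) < b i := by exact_mod_cast h.b_pos i
  obtain ⟨t, htI, htE⟩ : ∃ t, t ∈ Ioo (y i) (y i + b i) ∧ t ∉ E := by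
    have hinf : (Ioo (y i) (y i + b i)).Infinite := Set.Ioo_infinite (by linarith)
    obtain ⟨t, ht⟩ := (hinf.sdiff hEfin).nonempty
    exact ⟨t, ht.1, ht.2⟩
  -- a point just left of `x i`
  set E2 : Finset ℝ := (insert 0 (Finset.univ.image (fun j => x j + (a j : ℝ)))).filter
    (fun v => v < x i) with hE2
  have hE2ne : E2.Nonempty := ⟨0, by simp [hE2, hxi]⟩
  set L := E2.max' hE2ne with hL
  have hLmem : L ∈ E2 := E2.max'_mem hE2ne
  have hLlt : L < x i := by
    have := hLmem
    rw [hE2, Finset.mem_filter] at this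
    exact this.2
  have hL0 : 0 ≤ L := E2.le_max' 0 (by simp [hE2, hxi])
  have hai : (0 : ℝ) < a i := by exact_mod_cast h.a_pos i
  set s := (L + x i) / 2 with hs
  obtain ⟨j, ⟨hj1, hj2⟩, hj3, hj4⟩ := h.cov s t (by linarith) (by linarith [h.xn i])
    (by linarith [htI.1, h.y0 i]) (by linarith [htI.2, h.yn i])
  have hjy1 : y j ≠ t := fun he => htE (Or.inl ⟨j, he⟩)
  have hjy2 : y j + b j ≠ t := fun he => htE (Or.inr ⟨j, he⟩)
  have hjy3 : y j < t := lt_of_le_of_ne hj3 hjy1
  have hjy4 : t < y j + b j := lt_of_le_of_ne hj4 hjy2.symm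
  have h1 : x i ≤ x j + a j := by
    by_contra hlt
    push Not at hlt
    have : x j + a j ≤ L := by
      apply E2.le_max'
      rw [hE2, Finset.mem_filter]
      refine ⟨?_, hlt⟩
      rw [Finset.mem_insert]
      right
      exact Finset.mem_image.2 ⟨j, Finset.mem_univ _, rfl⟩
    linarith
  have hji : x j < x i := by linarith
  have h2 : x j + a j ≤ x i := by
    by_contra hlt
    push Not at hlt
    set u := (x i + min (x i + a i) (x j + a j)) / 2 with hu
    have hmin : x i < min (x i + a i) (x j + a j) := lt_min (by linarith) hlt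
    have hu1 : x i < u := by linarith
    have hu2 : u < min (x i + a i) (x j + a j) := by linarith
    have hij := h.dis i j u t ⟨hu1, lt_of_lt_of_le hu2 (min_le_left _ _)⟩ ⟨htI.1, htI.2⟩
      ⟨by linarith, lt_of_lt_of_le hu2 (min_le_right _ _)⟩ ⟨hjy3, hjy4⟩
    subst hij
    exact lt_irrefl _ hji
  have h3 : x j = x i - a j := by linarith
  have hjS : j ∈ S := by
    rw [hS, Finset.mem_filter]
    refine ⟨Finset.mem_univ _, fun k hk => hi (k + a j) ?_⟩
    push_cast
    linarith
  have := himin j hjS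
  linarith

/-- A real tiling comes from a discrete one. -/
lemma IsTiling.discrete {n m : ℕ} {x y : Fin m → ℝ} {a b : Fin m → ℕ}
    (h : IsTiling n m x y a b) : ∃ X Y : Fin m → ℕ, DTiling n m X Y a b := by
  have hc := h.cond
  have hX : ∀ i, ∃ k : ℕ, x i = k := by
    intro i
    obtain ⟨k, hk⟩ := hc.intx i
    have : 0 ≤ k := by
      have := hc.x0 i
      rw [hk] at this
      exact_mod_cast this
    exact ⟨k.toNat, by rw [hk]; exact_mod_cast (Int.toNat_of_nonneg this).symm⟩
  have hY : ∀ i, ∃ k : ℕ, y i = k := by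
    intro i
    obtain ⟨k, hk⟩ := hc.swap.intx i
    have : 0 ≤ k := by
      have := hc.y0 i
      rw [hk] at this
      exact_mod_cast this
    exact ⟨k.toNat, by rw [hk]; exact_mod_cast (Int.toNat_of_nonneg this).symm⟩
  choose X hX using hX
  choose Y hY using hY
  refine ⟨X, Y, h.a_pos, h.b_pos, ?_, ?_, ?_, ?_, h.shapes⟩
  · intro i
    have := hc.xn i
    rw [hX] at this
    exact_mod_cast this
  · intro i
    have := hc.yn i
    rw [hY] at this
    exact_mod_cast this
  · intro c hcn r hrn
    have hc1 : (c : ℝ) + 1 ≤ n := by exact_mod_cast hcn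
    have hr1 : (r : ℝ) + 1 ≤ n := by exact_mod_cast hrn
    have hc0 : (0 : ℝ) ≤ c := Nat.cast_nonneg c
    have hr0 : (0 : ℝ) ≤ r := Nat.cast_nonneg r
    obtain ⟨j, ⟨h1, h2⟩, h3, h4⟩ := hc.cov (c + 1 / 2) (r + 1 / 2) (by linarith) (by linarith)
      (by linarith) (by linarith)
    rw [hX] at h1 h2
    rw [hY] at h3 h4
    refine ⟨j, ⟨?_, ?_⟩, ?_, ?_⟩
    · have : (X j : ℝ) < ((c + 1 : ℕ) : ℝ) := by push_cast; linarith
      have : X j < c + 1 := by exact_mod_cast this
      omega
    · have : (c : ℝ) < ((X j + a j : ℕ) : ℝ) := by push_cast; linarith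
      exact_mod_cast this
    · have : (Y j : ℝ) < ((r + 1 : ℕ) : ℝ) := by push_cast; linarith
      have : Y j < r + 1 := by exact_mod_cast this
      omega
    · have : (r : ℝ) < ((Y j + b j : ℕ) : ℝ) := by push_cast; linarith
      exact_mod_cast this
  · intro c r i j h1 h2 h3 h4
    have key : ∀ (p q : ℕ) (z : ℕ), (p ≤ z ∧ z < p + q) →
        ((p : ℝ) < (z : ℝ) + 1 / 2 ∧ (z : ℝ) + 1 / 2 < (p : ℝ) + q) := by
      intro p q z hz
      have e1 : (p : ℝ) ≤ z := by exact_mod_cast hz.1
      have e2 : (z : ℝ) + 1 ≤ p + q := by exact_mod_cast hz.2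
      exact ⟨by linarith, by linarith⟩
    apply hc.dis i j (c + 1 / 2) (r + 1 / 2)
    · rw [hX]; exact key _ _ _ h1
    · rw [hY]; exact key _ _ _ h2
    · rw [hX]; exact key _ _ _ h3
    · rw [hY]; exact key _ _ _ h4

/-- A discrete tiling gives a real tiling. -/
lemma DTiling.real {n m : ℕ} {x y a b : Fin m → ℕ} (h : DTiling n m x y a b) (hn : 1 ≤ n) :
    IsTiling n m (fun i => (x i : ℝ)) (fun i => (y i : ℝ)) a b := by
  have hfl : ∀ s : ℝ, 0 ≤ s → s ≤ n → ∃ c < n, (c : ℝ) ≤ s ∧ s ≤ c + 1 := by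
    intro s h1 h2
    by_cases hs : s < n
    · refine ⟨⌊s⌋₊, (Nat.floor_lt h1).2 hs, Nat.floor_le h1, (Nat.lt_floor_add_one s).le⟩
    · refine ⟨n - 1, by omega, ?_, ?_⟩
      · rw [Nat.cast_sub hn]
        push_cast
        linarith
      · rw [Nat.cast_sub hn]
        push_cast
        linarith
  refine ⟨h.a_pos, h.b_pos, ?_, ?_, h.shapes⟩
  · ext ⟨s, t⟩
    rw [Set.mem_iUnion]
    constructor
    · rintro ⟨i, ⟨h1, h2⟩, h3, h4⟩
      have e1 : ((x i : ℝ) + a i) ≤ n := by exact_mod_cast h.xa i
      have e2 : ((y i : ℝ) + b i) ≤ n := by exact_mod_cast h.yb i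
      have e3 : (0 : ℝ) ≤ x i := Nat.cast_nonneg _
      have e4 : (0 : ℝ) ≤ y i := Nat.cast_nonneg _
      simp only at h1 h2 h3 h4
      exact ⟨⟨by simp only; linarith, by simp only; linarith⟩,
        ⟨by simp only; linarith, by simp only; linarith⟩⟩
    · rintro ⟨⟨h1, h2⟩, h3, h4⟩
      simp only at h1 h2 h3 h4
      obtain ⟨c, hc, hc1, hc2⟩ := hfl s h1 h2
      obtain ⟨r, hr, hr1, hr2⟩ := hfl t h3 h4
      obtain ⟨i, ⟨e1, e2⟩, e3, e4⟩ := h.ex c hc r hr
      have f1 : (x i : ℝ) ≤ c := by exact_mod_cast e1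
      have f2 : (c : ℝ) + 1 ≤ x i + a i := by exact_mod_cast e2
      have f3 : (y i : ℝ) ≤ r := by exact_mod_cast e3
      have f4 : (r : ℝ) + 1 ≤ y i + b i := by exact_mod_cast e4
      refine ⟨i, ⟨?_, ?_⟩, ?_, ?_⟩ <;> simp only <;> linarith
  · intro i j hij
    rw [Set.disjoint_left]
    rintro ⟨s, t⟩ h1 h2
    rw [interior_rect] at h1 h2
    obtain ⟨⟨p1, p2⟩, p3, p4⟩ := h1
    obtain ⟨⟨q1, q2⟩, q3, q4⟩ := h2
    simp only at p1 p2 p3 p4 q1 q2 q3 q4
    have hs0 : 0 ≤ s := by
      have : (0 : ℝ) ≤ x i := Nat.cast_nonneg _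
      linarith
    have ht0 : 0 ≤ t := by
      have : (0 : ℝ) ≤ y i := Nat.cast_nonneg _
      linarith
    have key : ∀ (p q : ℕ) (z : ℝ), 0 ≤ z → (p : ℝ) < z → z < (p : ℝ) + q →
        (p ≤ ⌊z⌋₊ ∧ ⌊z⌋₊ < p + q) := by
      intro p q z hz e1 e2
      refine ⟨Nat.le_floor e1.le, ?_⟩
      rw [Nat.floor_lt hz]
      push_cast
      exact e2
    exact hij (h.uniq ⌊s⌋₊ ⌊t⌋₊ i j (key _ _ _ hs0 p1 p2) (key _ _ _ ht0 p3 p4)
      (key _ _ _ hs0 q1 q2) (key _ _ _ ht0 q3 q4))

/-! ### The construction -/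

/-- Left coordinate of the `j`-th tile of height two. -/
def pos : ℕ → ℕ
  | 0 => 3
  | j + 1 => pos j + (j + 2)

lemma two_pos (j : ℕ) : 2 * pos j = 6 + j * (j + 3) := by
  induction j with
  | zero => rfl
  | succ j ih =>
    show 2 * (pos j + (j + 2)) = _
    rw [mul_add, ih]
    ring

lemma pos_mono {i j : ℕ} (h : i < j) : pos i + (i + 2) ≤ pos j := by
  induction j with
  | zero => omega
  | succ j ih =>
    show pos i + (i + 2) ≤ pos j + (j + 2)
    rcases Nat.lt_succ_iff_lt_or_eq.1 h with h | h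
    · have := ih h
      omega
    · subst h
      exact le_refl _

lemma pos_three (j : ℕ) : 3 ≤ pos j := by
  have := two_pos j
  have : 0 ≤ j * (j + 3) := Nat.zero_le _
  omega

/-- Left coordinates. -/
def cx (m : ℕ) (i : Fin m) : ℕ :=
  if i.val < 3 then 0 else if i.val = 3 then 1 else pos (i.val - 4)

/-- Bottom coordinates. -/
def cy (n m : ℕ) (i : Fin m) : ℕ :=
  if i.val = 0 then 0 else if i.val = 2 ∨ i.val = 3 then n - 1 else n - 2

/-- Widths. -/
def ca (n m : ℕ) (i : Fin m) : ℕ :=
  if i.val = 0 then n else if i.val = 1 then 3 else if i.val = 2 then 1 else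
    if i.val = 3 then 2 else if i.val + 1 = m then n - pos (m - 5) else i.val - 2

/-- Heights. -/
def cb (n m : ℕ) (i : Fin m) : ℕ :=
  if i.val = 0 then n - 2 else if i.val ≤ 3 then 1 else 2

lemma tile_cases (n k : ℕ) (i : Fin (k + 5)) :
    (i.val = 0 ∧ cx (k + 5) i = 0 ∧ ca n (k + 5) i = n ∧ cy n (k + 5) i = 0 ∧
      cb n (k + 5) i = n - 2) ∨
    (i.val = 1 ∧ cx (k + 5) i = 0 ∧ ca n (k + 5) i = 3 ∧ cy n (k + 5) i = n - 2 ∧
      cb n (k + 5) i = 1) ∨
    (i.val = 2 ∧ cx (k + 5) i = 0 ∧ ca n (k + 5) i = 1 ∧ cy n (k + 5) i = n - 1 ∧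
      cb n (k + 5) i = 1) ∨
    (i.val = 3 ∧ cx (k + 5) i = 1 ∧ ca n (k + 5) i = 2 ∧ cy n (k + 5) i = n - 1 ∧
      cb n (k + 5) i = 1) ∨
    (∃ j, j < k ∧ i.val = j + 4 ∧ cx (k + 5) i = pos j ∧ ca n (k + 5) i = j + 2 ∧
      cy n (k + 5) i = n - 2 ∧ cb n (k + 5) i = 2) ∨
    (i.val = k + 4 ∧ cx (k + 5) i = pos k ∧ ca n (k + 5) i = n - pos k ∧
      cy n (k + 5) i = n - 2 ∧ cb n (k + 5) i = 2) := by
  obtain ⟨i, hi⟩ := i
  have hm5 : k + 5 - 5 = k := by omega
  rcases i with _ | _ | _ | _ | j
  · left; simp [cx, ca, cy, cb]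
  · right; left; simp [cx, ca, cy, cb]
  · right; right; left; simp [cx, ca, cy, cb]
  · right; right; right; left; simp [cx, ca, cy, cb]
  · right; right; right; right
    have e4 : j + 1 + 1 + 1 + 1 - 4 = j := by omega
    by_cases hj : j < k
    · left
      refine ⟨j, hj, rfl, ?_, ?_, ?_, ?_⟩
      · simp only [cx, e4]
        rw [if_neg (by omega), if_neg (by omega)]
      · simp only [ca]
        rw [if_neg (by omega), if_neg (by omega), if_neg (by omega), if_neg (by omega),
          if_neg (by omega)]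
        omega
      · simp only [cy]
        rw [if_neg (by omega), if_neg (by omega)]
      · simp only [cb]
        rw [if_neg (by omega), if_neg (by omega)]
    · right
      have hjk : j = k := by omega
      subst hjk
      refine ⟨rfl, ?_, ?_, ?_, ?_⟩
      · simp only [cx, e4]
        rw [if_neg (by omega), if_neg (by omega)]
      · simp only [ca, hm5]
        rw [if_neg (by omega), if_neg (by omega), if_neg (by omega), if_neg (by omega),
          if_pos trivial]
      · simp only [cy]
        rw [if_neg (by omega), if_neg (by omega)]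
      · simp only [cb]
        rw [if_neg (by omega), if_neg (by omega)]

lemma construction {n m : ℕ} (hm : 5 ≤ m) (hn : (m - 2) * (m - 1) ≤ 2 * n) :
    DTiling n m (cx m) (cy n m) (ca n m) (cb n m) := by
  obtain ⟨k, rfl⟩ : ∃ k, m = k + 5 := ⟨m - 5, by omega⟩
  have hk : 2 * pos k = 6 + k * (k + 3) := two_pos k
  have hn' : (k + 3) * (k + 4) ≤ 2 * n := by simpa using hn
  have hlast : pos k + (k + 2) + 1 ≤ n := by nlinarith
  have hn6 : 6 ≤ n := by nlinarith
  clear hn hn' hk hm
  constructor
  · -- a_pos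
    intro i
    rcases tile_cases n k i with ⟨hi, e1, e2, e3, e4⟩ | ⟨hi, e1, e2, e3, e4⟩ |
      ⟨hi, e1, e2, e3, e4⟩ | ⟨hi, e1, e2, e3, e4⟩ | ⟨j, hj, hi, e1, e2, e3, e4⟩ |
      ⟨hi, e1, e2, e3, e4⟩ <;> rw [e2] <;> omega
  · intro i
    rcases tile_cases n k i with ⟨hi, e1, e2, e3, e4⟩ | ⟨hi, e1, e2, e3, e4⟩ |
      ⟨hi, e1, e2, e3, e4⟩ | ⟨hi, e1, e2, e3, e4⟩ | ⟨j, hj, hi, e1, e2, e3, e4⟩ |
      ⟨hi, e1, e2, e3, e4⟩ <;> rw [e4] <;> omega
  · -- xa
    intro i
    rcases tile_cases n k i with ⟨hi, e1, e2, e3, e4⟩ | ⟨hi, e1, e2, e3, e4⟩ |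
      ⟨hi, e1, e2, e3, e4⟩ | ⟨hi, e1, e2, e3, e4⟩ | ⟨j, hj, hi, e1, e2, e3, e4⟩ |
      ⟨hi, e1, e2, e3, e4⟩ <;> rw [e1, e2]
    all_goals first | omega | (have := pos_mono hj; omega)
  · -- yb
    intro i
    rcases tile_cases n k i with ⟨hi, e1, e2, e3, e4⟩ | ⟨hi, e1, e2, e3, e4⟩ |
      ⟨hi, e1, e2, e3, e4⟩ | ⟨hi, e1, e2, e3, e4⟩ | ⟨j, hj, hi, e1, e2, e3, e4⟩ |
      ⟨hi, e1, e2, e3, e4⟩ <;> rw [e3, e4] <;> omega
  · -- ex
    intro c hc r hr
    by_cases h1 : r < n - 2
    · refine ⟨⟨0, by omega⟩, ?_⟩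
      simp [cx, ca, cy, cb]
      omega
    · by_cases h2 : c < 3
      · by_cases h3 : r = n - 2
        · refine ⟨⟨1, by omega⟩, ?_⟩
          simp [cx, ca, cy, cb]
          omega
        · by_cases h4 : c = 0
          · refine ⟨⟨2, by omega⟩, ?_⟩
            simp [cx, ca, cy, cb]
            omega
          · refine ⟨⟨3, by omega⟩, ?_⟩
            simp [cx, ca, cy, cb]
            omega
      · -- the greatest index
        have hex : ∃ j ≤ k, pos j ≤ c ∧ (j < k → c < pos (j + 1)) := by
          refine ⟨Nat.findGreatest (fun j => pos j ≤ c) k, Nat.findGreatest_le k, ?_, ?_⟩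
          · have := Nat.findGreatest_spec (P := fun j => pos j ≤ c) (Nat.zero_le k)
              (show pos 0 ≤ c by show 3 ≤ c; omega)
            exact this
          · intro hlt
            have := Nat.findGreatest_is_greatest (P := fun j => pos j ≤ c)
              (n := k) (k := Nat.findGreatest (fun j => pos j ≤ c) k + 1) (by omega) (by omega)
            omega
        obtain ⟨j, hjk, hj1, hj2⟩ := hex
        refine ⟨⟨j + 4, by omega⟩, ?_⟩
        rcases tile_cases n k ⟨j + 4, by omega⟩ with ⟨hi, _⟩ | ⟨hi, _⟩ | ⟨hi, _⟩ | ⟨hi, _⟩ |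
          ⟨l, hl, hi, e1, e2, e3, e4⟩ | ⟨hi, e1, e2, e3, e4⟩
        · simp at hi
        · simp at hi
        · simp at hi
        · simp at hi
        · have hlj : l = j := by simpa using hi.symm
          subst hlj
          have hj3 : c < pos l + (l + 2) := hj2 hl
          rw [e1, e2, e3, e4]
          omega
        · have hlj : j = k := by simpa using hi
          subst hlj
          rw [e1, e2, e3, e4]
          omega
  · -- uniq
    intro c r i i' h1 h2 h3 h4
    apply Fin.ext
    rcases tile_cases n k i with ⟨hi, e1, e2, e3, e4⟩ | ⟨hi, e1, e2, e3, e4⟩ |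
      ⟨hi, e1, e2, e3, e4⟩ | ⟨hi, e1, e2, e3, e4⟩ | ⟨j, hj, hi, e1, e2, e3, e4⟩ |
      ⟨hi, e1, e2, e3, e4⟩ <;> rw [e1, e2] at h1 <;> rw [e3, e4] at h2 <;> clear e1 e2 e3 e4 <;>
    rcases tile_cases n k i' with ⟨hi', e1, e2, e3, e4⟩ | ⟨hi', e1, e2, e3, e4⟩ |
      ⟨hi', e1, e2, e3, e4⟩ | ⟨hi', e1, e2, e3, e4⟩ | ⟨j', hj', hi', e1, e2, e3, e4⟩ |
      ⟨hi', e1, e2, e3, e4⟩ <;> rw [e1, e2] at h3 <;> rw [e3, e4] at h4 <;> clear e1 e2 e3 e4 <;>
    first
    | omega
    | (have := pos_three j; omega)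
    | (have := pos_three j'; omega)
    | (have := pos_three k; omega)
    | (have := pos_mono hj; omega)
    | (have := pos_mono hj'; omega)
    | (rcases lt_trichotomy j j' with h | h | h
       · have := pos_mono h; omega
       · omega
       · have := pos_mono h; omega)
  · -- shapes
    intro i i' hij hs
    apply hij
    apply Fin.ext
    rw [Sym2.eq_iff] at hs
    rcases tile_cases n k i with ⟨hi, e1, e2, e3, e4⟩ | ⟨hi, e1, e2, e3, e4⟩ |
      ⟨hi, e1, e2, e3, e4⟩ | ⟨hi, e1, e2, e3, e4⟩ | ⟨j, hj, hi, e1, e2, e3, e4⟩ |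
      ⟨hi, e1, e2, e3, e4⟩ <;> rw [e2, e4] at hs <;> clear e1 e2 e3 e4 <;>
    rcases tile_cases n k i' with ⟨hi', e1, e2, e3, e4⟩ | ⟨hi', e1, e2, e3, e4⟩ |
      ⟨hi', e1, e2, e3, e4⟩ | ⟨hi', e1, e2, e3, e4⟩ | ⟨j', hj', hi', e1, e2, e3, e4⟩ |
      ⟨hi', e1, e2, e3, e4⟩ <;> rw [e2, e4] at hs <;> clear e1 e2 e3 e4 <;> omega

lemma construction_sum {n m : ℕ} (hm : 5 ≤ m) (hn : (m - 2) * (m - 1) ≤ 2 * n) :
    ∑ i, (ca n m i + cb n m i) = (n + 2 * (m - 2)) + 2 * n := by
  obtain ⟨k, rfl⟩ : ∃ k, m = k + 5 := ⟨m - 5, by omega⟩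
  have hk : 2 * pos k = 6 + k * (k + 3) := two_pos k
  have hn' : (k + 3) * (k + 4) ≤ 2 * n := by simpa using hn
  have hlast : pos k + (k + 2) + 1 ≤ n := by nlinarith
  have hm5 : k + 5 - 5 = k := by omega
  have hsum : ∀ q, ∑ i ∈ Finset.range q, (i + 4) + 3 = pos q + 2 * q := by
    intro q
    induction q with
    | zero => rfl
    | succ q ih =>
      rw [Finset.sum_range_succ]
      show _ = pos q + (q + 2) + 2 * (q + 1)
      omega
  set f : ℕ → ℕ := fun i => (if i = 0 then n else if i = 1 then 3 else if i = 2 then 1 else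
    if i = 3 then 2 else if i + 1 = k + 5 then n - pos k else i - 2) +
    (if i = 0 then n - 2 else if i ≤ 3 then 1 else 2) with hf
  have h1 : ∑ i : Fin (k + 5), (ca n (k + 5) i + cb n (k + 5) i) = ∑ i ∈ Finset.range (k + 5), f i := by
    rw [Finset.sum_range]
    apply Finset.sum_congr rfl
    intro i _
    simp only [ca, cb, hf, hm5]
  rw [h1, show k + 5 = (k + 1) + 4 by omega, Finset.sum_range_succ', Finset.sum_range_succ',
    Finset.sum_range_succ', Finset.sum_range_succ', Finset.sum_range_succ]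
  have h2 : ∑ i ∈ Finset.range k, f (i + 1 + 1 + 1 + 1) = ∑ i ∈ Finset.range k, (i + 4) := by
    apply Finset.sum_congr rfl
    intro i hi
    rw [Finset.mem_range] at hi
    simp only [hf]
    rw [if_neg (by omega), if_neg (by omega), if_neg (by omega), if_neg (by omega),
      if_neg (by omega), if_neg (by omega), if_neg (by omega)]
    omega
  rw [h2]
  have h3 := hsum k
  have e0 : f 0 = n + (n - 2) := by simp [hf]
  have e1 : f (0 + 1) = 4 := by simp [hf]
  have e2 : f (0 + 1 + 1) = 2 := by simp [hf]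
  have e3 : f (0 + 1 + 1 + 1) = 3 := by simp [hf]
  have e4 : f (k + 1 + 1 + 1 + 1) = n - pos k + 2 := by
    simp only [hf]
    rw [if_neg (by omega), if_neg (by omega), if_neg (by omega), if_neg (by omega),
      if_pos trivial, if_neg (by omega), if_neg (by omega)]
  rw [e0, e1, e2, e3, e4]
  have e5 : k + 1 + 4 - 2 = k + 3 := by omega
  rw [e5]
  clear_value f
  omega

/-- In the middle regime the minimal internal wall length is `n + 2(m-2)`. -/
theorem result : ∀ m n : ℕ, 5 ≤ m → (m - 2) * (m - 1) / 2 ≤ n → n < (m - 1) * m / 2 →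
    (∃ (x y : Fin m → ℝ) (a b : Fin m → ℕ), IsTiling n m x y a b) ∧
      Wstar n m = n + 2 * (m - 2) := by
  intro m n hm h1 h2
  have hev1 : 2 ∣ (m - 2) * (m - 1) := by
    have := Nat.even_mul_succ_self (m - 2)
    rw [show m - 2 + 1 = m - 1 by omega] at this
    exact this.two_dvd
  have hev2 : 2 ∣ (m - 1) * m := by
    have := Nat.even_mul_succ_self (m - 1)
    rw [show m - 1 + 1 = m by omega] at this
    exact this.two_dvd
  have h1' : (m - 2) * (m - 1) ≤ 2 * n := by omega
  have h2' : 2 * n < m * (m - 1) := by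
    rw [mul_comm m]
    omega
  have hn : 2 * (m - 2) ≤ n := by
    obtain ⟨k, rfl⟩ : ∃ k, m = k + 5 := ⟨m - 5, by omega⟩
    have hn' : (k + 3) * (k + 4) ≤ 2 * n := by simpa using h1'
    have : 2 * (k + 3) ≤ n := by nlinarith
    simpa using this
  have hn1 : 1 ≤ n := by omega
  have ht := (construction hm h1').real hn1
  have hmem : n + 2 * (m - 2) ∈ wallLengths n m :=
    ⟨_, _, _, _, ht, construction_sum hm h1'⟩
  refine ⟨⟨_, _, _, _, ht⟩, ?_⟩
  apply le_antisymm
  · exact Nat.sInf_le hmem
  · apply le_csInf ⟨_, hmem⟩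
    rintro W ⟨x, y, a, b, hT, hW⟩
    obtain ⟨X, Y, hD⟩ := hT.discrete
    have := discrete_lower hD (by omega) hn h2'
    rw [Finset.sum_add_distrib] at hW
    omega

end Pool.Agent.Results.MP_88b750_co.MiddleRegime
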